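import Pool.Agent.ISO.StmtsM

/-!
# ISO, row RHO: the ring homomorphism
-/

set_option autoImplicit false
set_option linter.unusedVariables false

namespace Pool.Agent.ISO.H60

open MvPolynomial Pool.Agent.Helper6_Mono Pool.Agent.ISO

section rel

variable {k : Type} [Field k] {σ : Type} [Finite σ] {f : MvPolynomial σ k}

theorem cls_iso {V W : GSch f} (h : V.Iso W) : cls V = cls W := by
  have h1 : K0.cl0 V = K0.cl0 W := Ideal.Quotient.eq.2 (Ideal.subset_span (KRel.iso V W h))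
  unfold cls
  rw [h1]

theorem cls_prod (V W : GSch f) : cls (V.prod W) = cls V * cls W := by
  have h1 : K0.cl0 (V.prod W) = K0.cl0 V * K0.cl0 W :=
    (Ideal.Quotient.eq.2 (Ideal.subset_span (KRel.prod V W)) :
      Ideal.Quotient.mk (relIdeal f) (X (V.prod W)) =
        Ideal.Quotient.mk (relIdeal f) (X V * X W))
  unfold cls
  rw [h1, map_mul]

theorem cls_scissor (V : GSch f) (h : MvPolynomial V.Idx k) (c : CharMu) (hh : Hom V.wt h c) :
    cls V = cls (V.zero h c hh) + cls (V.unit h c hh) := by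
  have h1 : K0.cl0 V = K0.cl0 (V.zero h c hh) + K0.cl0 (V.unit h c hh) := by
    refine (Ideal.Quotient.eq.2 ?_ : Ideal.Quotient.mk (relIdeal f) (X V) =
      Ideal.Quotient.mk (relIdeal f) (X (V.zero h c hh) + X (V.unit h c hh)))
    rw [← sub_sub]
    exact Ideal.subset_span (KRel.scissor V h c hh)
  unfold cls
  rw [h1, map_add]

theorem cls_line (V : GSch f) (c : CharMu) :
    cls (V.line c) = ((LL f : (MM f)ˣ) : MM f) * cls V := by
  have hL : ((LL f : (MM f)ˣ) : MM f) = toMM f (K0.cl0 ((GSch.base f).line 0)) := rfl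
  have h1 : K0.cl0 (V.line c) = K0.cl0 ((GSch.base f).line 0) * K0.cl0 V :=
    (Ideal.Quotient.eq.2 (Ideal.subset_span (KRel.line V c)) :
      Ideal.Quotient.mk (relIdeal f) (X (V.line c)) =
        Ideal.Quotient.mk (relIdeal f) (X ((GSch.base f).line 0) * X V))
  rw [hL]
  unfold cls
  rw [h1, map_mul]

end rel

theorem aux (h1 : MviStmt) (h2 : MvzStmt) (h3 : MvuStmt) (h4 : MvlStmt) (h5 : MvpStmt)
    {k : Type} [Field k] {σ : Type} [Finite σ] (f f1 : MvPolynomial σ k) (p : σ → k)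
    (hp : eval p f = 0) (I : Ideal (MM f))
    (hI : 1 - cls (mv f p hp (GSch.base f1)) ∈ I) :
    ∃ ρ : MM f1 →+* (MM f ⧸ I),
      (∀ V : GSch f1, ρ (cls V) = Ideal.Quotient.mk I (cls (mv f p hp V))) ∧
      ∀ a : ℤ, ρ (Lpow f1 a) = Ideal.Quotient.mk I (Lpow f a) := by
  obtain ⟨q, hq⟩ : ∃ q : MM f →+* MM f ⧸ I, q = Ideal.Quotient.mk I := ⟨_, rfl⟩
  rw [← hq]
  have hq1 : q (cls (mv f p hp (GSch.base f1))) = 1 := by
    rw [hq, ← map_one (Ideal.Quotient.mk I), eq_comm, Ideal.Quotient.eq]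
    exact hI
  obtain ⟨g, hg⟩ : ∃ g : MvPolynomial (GSch f1) ℤ →+* (MM f ⧸ I),
      g = MvPolynomial.eval₂Hom (Int.castRingHom _) (fun V => q (cls (mv f p hp V))) := ⟨_, rfl⟩
  have hgX : ∀ V, g (X V) = q (cls (mv f p hp V)) := by
    intro V
    rw [hg]
    exact MvPolynomial.eval₂Hom_X' _ _ _
  have hLe : ∀ c : CharMu, cls (mv f p hp ((GSch.base f1).line c)) =
      ((LL f : (MM f)ˣ) : MM f) * cls (mv f p hp (GSch.base f1)) := by
    intro c
    rw [cls_iso (h4 k σ f f1 p hp (GSch.base f1) c), cls_line]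
  have hker : ∀ r ∈ relIdeal f1, g r = 0 := by
    have : relIdeal f1 ≤ RingHom.ker g := by
      unfold relIdeal
      rw [Ideal.span_le]
      intro r hr
      show g r = 0
      cases (hr : KRel f1 r) with
      | iso V W h =>
        rw [map_sub, hgX, hgX, cls_iso (h1 k σ f f1 p hp V W h), sub_self]
      | scissor V h c hh =>
        rw [map_sub, map_sub, hgX, hgX, hgX, cls_iso (h2 k σ f f1 p hp V h c hh),
          cls_iso (h3 k σ f f1 p hp V h c hh), cls_scissor (mv f p hp V) h c hh, map_add]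
        ring
      | prod V W =>
        rw [map_sub, map_mul, hgX, hgX, hgX, cls_iso (h5 k σ f f1 p hp V W), cls_prod, map_mul,
          sub_self]
      | one =>
        rw [map_sub, map_one, hgX, hq1, sub_self]
      | line V c =>
        rw [map_sub, map_mul, hgX, hgX, hgX, hLe, cls_iso (h4 k σ f f1 p hp V c), cls_line,
          map_mul, map_mul, hq1, mul_one, sub_self]
    intro r hr
    exact this hr
  obtain ⟨ρ₀, hρ₀⟩ : ∃ ρ₀ : K0 f1 →+* (MM f ⧸ I),
      ∀ V, ρ₀ (K0.cl0 V) = q (cls (mv f p hp V)) :=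
    ⟨Ideal.Quotient.lift (relIdeal f1) g hker, fun V => by
      rw [← hgX]
      exact Ideal.Quotient.lift_mk _ _ _⟩
  have hL0 : ρ₀ (K0.L0 f1) = q ((LL f : (MM f)ˣ) : MM f) := by
    unfold K0.L0
    rw [hρ₀, hLe, map_mul, hq1, mul_one]
  have hu : IsUnit (ρ₀ (K0.L0 f1)) := by
    rw [hL0]
    exact (Units.isUnit _).map q
  obtain ⟨ρ, hρ⟩ : ∃ ρ : MM f1 →+* (MM f ⧸ I), ∀ x, ρ (toMM f1 x) = ρ₀ x :=
    ⟨(IsLocalization.Away.lift (S := Localization.Away (K0.L0 f1)) (K0.L0 f1) hu),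
      fun x => IsLocalization.Away.lift_eq (S := Localization.Away (K0.L0 f1)) (K0.L0 f1) hu x⟩
  refine ⟨ρ, fun V => ?_, fun a => ?_⟩
  · unfold cls
    rw [hρ, hρ₀]
    rfl
  · have hLu : Units.map (ρ : MM f1 →* (MM f ⧸ I)) (LL f1) =
        Units.map (q : MM f →* (MM f ⧸ I)) (LL f) := by
      apply Units.ext
      show ρ (toMM f1 (K0.L0 f1)) = q ((LL f : (MM f)ˣ) : MM f)
      rw [hρ, hL0]
    have h7 : Units.map (ρ : MM f1 →* (MM f ⧸ I)) (LL f1 ^ a) =
        Units.map (q : MM f →* (MM f ⧸ I)) (LL f ^ a) := by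
      rw [map_zpow, map_zpow, hLu]
    exact congrArg (fun u : (MM f ⧸ I)ˣ => (u : MM f ⧸ I)) h7

theorem rho (h1 : MviStmt) (h2 : MvzStmt) (h3 : MvuStmt) (h4 : MvlStmt) (h5 : MvpStmt)
    (h6 : MveStmt) : RhoStmt := by
  intro k _ σ _ f f1 p hp h0
  refine ⟨fun V => ?_, ?_⟩
  · rw [← cls_prod]
    exact cls_iso (h6 k σ f f1 p hp h0 V)
  · exact aux h1 h2 h3 h4 h5 f f1 p hp _ (Ideal.subset_span rfl)

end Pool.Agent.ISO.H60
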